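import Pool.Agent.NNr.R13_1_5_6.D0
import Pool.Agent.NNr.R13_1_5_6.D1
import Pool.Agent.NNr.R13_1_5_6.D2
import Pool.Agent.NNe.Slots

set_option linter.all false
set_option maxRecDepth 1000000
namespace Pool.Agent.NNr.R13_1_5_6

open Pool.Agent.NNe

def rf1_11 : rfCk (nat_lit 61) (nat_lit 8) (nat_lit 60) (nat_lit 5) (nat_lit 1) (nat_lit 262144) (nat_lit 11) TL1 CL0 CL1 = true := by decide +kernel
def st1_11_0 : starCk (nat_lit 60) (nat_lit 5) (nat_lit 1) (nat_lit 2) (nat_lit 142) (nat_lit 304) (nat_lit 16) C1_11 = true := by decide +kernel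
def sc1_11 : stCov (nat_lit 1) (nat_lit 304) (Rl.cons (nat_lit 304) (nat_lit 142) Rl.nil) C1_11 = true := by decide +kernel
def wf1_12 : wfC (nat_lit 60) (nat_lit 5) C1_12 = true := by decide +kernel
def rf1_12 : rfCk (nat_lit 61) (nat_lit 8) (nat_lit 60) (nat_lit 5) (nat_lit 1) (nat_lit 262144) (nat_lit 12) TL1 CL0 CL1 = true := by decide +kernel
def st1_12_0 : starCk (nat_lit 60) (nat_lit 5) (nat_lit 1) (nat_lit 2) (nat_lit 74) (nat_lit 192) (nat_lit 256) C1_12 = true := by decide +kernel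
def sc1_12 : stCov (nat_lit 2) (nat_lit 192) (Rl.cons (nat_lit 192) (nat_lit 74) Rl.nil) C1_12 = true := by decide +kernel
def wf1_13 : wfC (nat_lit 60) (nat_lit 5) C1_13 = true := by decide +kernel
def rf1_13 : rfCk (nat_lit 61) (nat_lit 8) (nat_lit 60) (nat_lit 5) (nat_lit 1) (nat_lit 262144) (nat_lit 13) TL1 CL0 CL1 = true := by decide +kernel
def st1_13_0 : starCk (nat_lit 60) (nat_lit 5) (nat_lit 1) (nat_lit 2) (nat_lit 54) (nat_lit 168) (nat_lit 16) C1_13 = true := by decide +kernel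
def sc1_13 : stCov (nat_lit 1) (nat_lit 168) (Rl.cons (nat_lit 168) (nat_lit 54) Rl.nil) C1_13 = true := by decide +kernel
def ti1_0 : tileCk (nat_lit 60) (nat_lit 5) (nat_lit 2) (nat_lit 2) (nat_lit 316) (nat_lit 13) (nat_lit 15) ZL1_0 CL1 = true := by decide +kernel
def zl1_0 : zlOK (nat_lit 316) ZL1_0 = true := by decide +kernel
def ti1_1 : tileCk (nat_lit 60) (nat_lit 5) (nat_lit 2) (nat_lit 2) (nat_lit 316) (nat_lit 13) (nat_lit 15) ZL1_1 CL1 = true := by decide +kernel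
def zl1_1 : zlOK (nat_lit 316) ZL1_1 = true := by decide +kernel
def tc1_0 : tiCov (nat_lit 1) (nat_lit 0) ZZ1 C1_0 = true := by decide +kernel
def tc1_1 : tiCov (nat_lit 1) (nat_lit 1) ZZ1 C1_1 = true := by decide +kernel
def tc1_2 : tiCov (nat_lit 1) (nat_lit 2) ZZ1 C1_2 = true := by decide +kernel
def tc1_3 : tiCov (nat_lit 1) (nat_lit 3) ZZ1 C1_3 = true := by decide +kernel
def tc1_4 : tiCov (nat_lit 1) (nat_lit 4) ZZ1 C1_4 = true := by decide +kernel
def tc1_5 : tiCov (nat_lit 1) (nat_lit 5) ZZ1 C1_5 = true := by decide +kernel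
def tc1_6 : tiCov (nat_lit 1) (nat_lit 6) ZZ1 C1_6 = true := by decide +kernel
def tc1_9 : tiCov (nat_lit 1) (nat_lit 9) ZZ1 C1_9 = true := by decide +kernel
def tc1_10 : tiCov (nat_lit 1) (nat_lit 10) ZZ1 C1_10 = true := by decide +kernel
def tc1_11 : tiCov (nat_lit 1) (nat_lit 11) ZZ1 C1_11 = true := by decide +kernel
def tc1_12 : tiCov (nat_lit 1) (nat_lit 12) ZZ1 C1_12 = true := by decide +kernel
def tc1_13 : tiCov (nat_lit 1) (nat_lit 13) ZZ1 C1_13 = true := by decide +kernel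
def wf2_0 : wfC (nat_lit 60) (nat_lit 17) C2_0 = true := by decide +kernel
def rf2_0 : rfCk (nat_lit 60) (nat_lit 5) (nat_lit 60) (nat_lit 17) (nat_lit 9) (nat_lit 0) (nat_lit 0) TL2 CL1 CL2 = true := by decide +kernel
def st2_0_0 : starCk (nat_lit 60) (nat_lit 17) (nat_lit 1) (nat_lit 8) (nat_lit 9) (nat_lit 0) (nat_lit 256) C2_0 = true := by decide +kernel
def sc2_0 : stCov (nat_lit 2) (nat_lit 0) (Rl.cons (nat_lit 0) (nat_lit 9) Rl.nil) C2_0 = true := by decide +kernel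
def wf2_1 : wfC (nat_lit 60) (nat_lit 17) C2_1 = true := by decide +kernel
def rf2_1 : rfCk (nat_lit 60) (nat_lit 5) (nat_lit 60) (nat_lit 17) (nat_lit 9) (nat_lit 0) (nat_lit 1) TL2 CL1 CL2 = true := by decide +kernel
def st2_1_0 : starCk (nat_lit 60) (nat_lit 17) (nat_lit 1) (nat_lit 8) (nat_lit 19) (nat_lit 51) (nat_lit 16) C2_1 = true := by decide +kernel
def sc2_1 : stCov (nat_lit 1) (nat_lit 51) (Rl.cons (nat_lit 51) (nat_lit 19) Rl.nil) C2_1 = true := by decide +kernel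
def wf2_2 : wfC (nat_lit 60) (nat_lit 17) C2_2 = true := by decide +kernel
def rf2_2 : rfCk (nat_lit 60) (nat_lit 5) (nat_lit 60) (nat_lit 17) (nat_lit 9) (nat_lit 0) (nat_lit 2) TL2 CL1 CL2 = true := by decide +kernel
def st2_2_0 : starCk (nat_lit 60) (nat_lit 17) (nat_lit 1) (nat_lit 8) (nat_lit 22) (nat_lit 148) (nat_lit 256) C2_2 = true := by decide +kernel
def sc2_2 : stCov (nat_lit 2) (nat_lit 148) (Rl.cons (nat_lit 148) (nat_lit 22) Rl.nil) C2_2 = true := by decide +kernel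
def wf2_3 : wfC (nat_lit 60) (nat_lit 17) C2_3 = true := by decide +kernel
def rf2_3 : rfCk (nat_lit 60) (nat_lit 5) (nat_lit 60) (nat_lit 17) (nat_lit 9) (nat_lit 0) (nat_lit 3) TL2 CL1 CL2 = true := by decide +kernel
def st2_3_0 : starCk (nat_lit 60) (nat_lit 17) (nat_lit 1) (nat_lit 8) (nat_lit 14) (nat_lit 124) (nat_lit 256) C2_3 = true := by decide +kernel
def sc2_3 : stCov (nat_lit 2) (nat_lit 124) (Rl.cons (nat_lit 124) (nat_lit 14) Rl.nil) C2_3 = true := by decide +kernel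
def wf2_4 : wfC (nat_lit 60) (nat_lit 17) C2_4 = true := by decide +kernel
def rf2_4 : rfCk (nat_lit 60) (nat_lit 5) (nat_lit 60) (nat_lit 17) (nat_lit 9) (nat_lit 0) (nat_lit 4) TL2 CL1 CL2 = true := by decide +kernel
def st2_4_0 : starCk (nat_lit 60) (nat_lit 17) (nat_lit 1) (nat_lit 8) (nat_lit 18) (nat_lit 40) (nat_lit 16) C2_4 = true := by decide +kernel
def sc2_4 : stCov (nat_lit 1) (nat_lit 40) (Rl.cons (nat_lit 40) (nat_lit 18) Rl.nil) C2_4 = true := by decide +kernel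
def wf2_5 : wfC (nat_lit 60) (nat_lit 17) C2_5 = true := by decide +kernel
def rf2_5 : rfCk (nat_lit 60) (nat_lit 5) (nat_lit 60) (nat_lit 17) (nat_lit 9) (nat_lit 0) (nat_lit 5) TL2 CL1 CL2 = true := by decide +kernel
def st2_5_0 : starCk (nat_lit 60) (nat_lit 17) (nat_lit 1) (nat_lit 8) (nat_lit 5) (nat_lit 21) (nat_lit 256) C2_5 = true := by decide +kernel
def sc2_5 : stCov (nat_lit 2) (nat_lit 21) (Rl.cons (nat_lit 21) (nat_lit 5) Rl.nil) C2_5 = true := by decide +kernel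
def wf2_6 : wfC (nat_lit 60) (nat_lit 17) C2_6 = true := by decide +kernel
def rf2_6 : rfCk (nat_lit 60) (nat_lit 5) (nat_lit 60) (nat_lit 17) (nat_lit 9) (nat_lit 0) (nat_lit 6) TL2 CL1 CL2 = true := by decide +kernel
def st2_6_0 : starCk (nat_lit 60) (nat_lit 17) (nat_lit 1) (nat_lit 8) (nat_lit 4) (nat_lit 28) (nat_lit 16) C2_6 = true := by decide +kernel
def sc2_6 : stCov (nat_lit 1) (nat_lit 28) (Rl.cons (nat_lit 28) (nat_lit 4) Rl.nil) C2_6 = true := by decide +kernel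
def wf2_9 : wfC (nat_lit 60) (nat_lit 17) C2_9 = true := by decide +kernel
def rf2_9 : rfCk (nat_lit 60) (nat_lit 5) (nat_lit 60) (nat_lit 17) (nat_lit 9) (nat_lit 0) (nat_lit 9) TL2 CL1 CL2 = true := by decide +kernel
def st2_9_0 : starCk (nat_lit 60) (nat_lit 17) (nat_lit 1) (nat_lit 8) (nat_lit 173) (nat_lit 221) (nat_lit 4096) C2_9 = true := by decide +kernel
def sc2_9 : stCov (nat_lit 3) (nat_lit 221) (Rl.cons (nat_lit 221) (nat_lit 173) Rl.nil) C2_9 = true := by decide +kernel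
def wf2_10 : wfC (nat_lit 60) (nat_lit 17) C2_10 = true := by decide +kernel
def rf2_10 : rfCk (nat_lit 60) (nat_lit 5) (nat_lit 60) (nat_lit 17) (nat_lit 9) (nat_lit 0) (nat_lit 10) TL2 CL1 CL2 = true := by decide +kernel

end Pool.Agent.NNr.R13_1_5_6
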