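import Pool.Agent.NNr.R13_1_5_6.D1
import Pool.Agent.NNr.R13_1_5_6.D2
import Pool.Agent.NNr.R13_1_5_6.D3

set_option linter.all false
set_option maxRecDepth 1000000
namespace Pool.Agent.NNr.R13_1_5_6

open Pool.Agent.NNe

def st2_10_0 : starCk (nat_lit 60) (nat_lit 17) (nat_lit 1) (nat_lit 8) (nat_lit 74) (nat_lit 220) (nat_lit 16) C2_10 = true := by decide +kernel
def sc2_10 : stCov (nat_lit 1) (nat_lit 220) (Rl.cons (nat_lit 220) (nat_lit 74) Rl.nil) C2_10 = true := by decide +kernel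
def wf2_11 : wfC (nat_lit 60) (nat_lit 17) C2_11 = true := by decide +kernel
def rf2_11 : rfCk (nat_lit 60) (nat_lit 5) (nat_lit 60) (nat_lit 17) (nat_lit 9) (nat_lit 0) (nat_lit 11) TL2 CL1 CL2 = true := by decide +kernel
def st2_11_0 : starCk (nat_lit 60) (nat_lit 17) (nat_lit 1) (nat_lit 8) (nat_lit 80) (nat_lit 203) (nat_lit 16) C2_11 = true := by decide +kernel
def sc2_11 : stCov (nat_lit 1) (nat_lit 203) (Rl.cons (nat_lit 203) (nat_lit 80) Rl.nil) C2_11 = true := by decide +kernel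
def wf2_12 : wfC (nat_lit 60) (nat_lit 17) C2_12 = true := by decide +kernel
def rf2_12 : rfCk (nat_lit 60) (nat_lit 5) (nat_lit 60) (nat_lit 17) (nat_lit 9) (nat_lit 0) (nat_lit 12) TL2 CL1 CL2 = true := by decide +kernel
def st2_12_0 : starCk (nat_lit 60) (nat_lit 17) (nat_lit 1) (nat_lit 8) (nat_lit 37) (nat_lit 123) (nat_lit 256) C2_12 = true := by decide +kernel
def sc2_12 : stCov (nat_lit 2) (nat_lit 123) (Rl.cons (nat_lit 123) (nat_lit 37) Rl.nil) C2_12 = true := by decide +kernel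
def wf2_13 : wfC (nat_lit 60) (nat_lit 17) C2_13 = true := by decide +kernel
def rf2_13 : rfCk (nat_lit 60) (nat_lit 5) (nat_lit 60) (nat_lit 17) (nat_lit 9) (nat_lit 0) (nat_lit 13) TL2 CL1 CL2 = true := by decide +kernel
def st2_13_0 : starCk (nat_lit 60) (nat_lit 17) (nat_lit 1) (nat_lit 8) (nat_lit 27) (nat_lit 109) (nat_lit 16) C2_13 = true := by decide +kernel
def sc2_13 : stCov (nat_lit 1) (nat_lit 109) (Rl.cons (nat_lit 109) (nat_lit 27) Rl.nil) C2_13 = true := by decide +kernel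
def ti2_0 : tileCk (nat_lit 60) (nat_lit 17) (nat_lit 2) (nat_lit 8) (nat_lit 233) (nat_lit 13) (nat_lit 15) ZL2_0 CL2 = true := by decide +kernel
def zl2_0 : zlOK (nat_lit 233) ZL2_0 = true := by decide +kernel
def ti2_1 : tileCk (nat_lit 60) (nat_lit 17) (nat_lit 2) (nat_lit 8) (nat_lit 50) (nat_lit 13) (nat_lit 15) ZL2_1 CL2 = true := by decide +kernel
def zl2_1 : zlOK (nat_lit 50) ZL2_1 = true := by decide +kernel
def tc2_0 : tiCov (nat_lit 1) (nat_lit 0) ZZ2 C2_0 = true := by decide +kernel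
def tc2_1 : tiCov (nat_lit 1) (nat_lit 1) ZZ2 C2_1 = true := by decide +kernel
def tc2_2 : tiCov (nat_lit 1) (nat_lit 2) ZZ2 C2_2 = true := by decide +kernel
def tc2_3 : tiCov (nat_lit 1) (nat_lit 3) ZZ2 C2_3 = true := by decide +kernel
def tc2_4 : tiCov (nat_lit 1) (nat_lit 4) ZZ2 C2_4 = true := by decide +kernel
def tc2_5 : tiCov (nat_lit 1) (nat_lit 5) ZZ2 C2_5 = true := by decide +kernel
def tc2_6 : tiCov (nat_lit 1) (nat_lit 6) ZZ2 C2_6 = true := by decide +kernel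
def tc2_9 : tiCov (nat_lit 1) (nat_lit 9) ZZ2 C2_9 = true := by decide +kernel
def tc2_10 : tiCov (nat_lit 1) (nat_lit 10) ZZ2 C2_10 = true := by decide +kernel
def tc2_11 : tiCov (nat_lit 1) (nat_lit 11) ZZ2 C2_11 = true := by decide +kernel
def tc2_12 : tiCov (nat_lit 1) (nat_lit 12) ZZ2 C2_12 = true := by decide +kernel
def tc2_13 : tiCov (nat_lit 1) (nat_lit 13) ZZ2 C2_13 = true := by decide +kernel
def wf3_0 : wfC (nat_lit 59) (nat_lit 11) C3_0 = true := by decide +kernel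
def rf3_0 : rfCk (nat_lit 60) (nat_lit 17) (nat_lit 59) (nat_lit 11) (nat_lit 4) (nat_lit 524288) (nat_lit 0) TL3 CL2 CL3 = true := by decide +kernel
def st3_0_0 : starCk (nat_lit 59) (nat_lit 11) (nat_lit 1) (nat_lit 5) (nat_lit 36) (nat_lit 0) (nat_lit 256) C3_0 = true := by decide +kernel
def sc3_0 : stCov (nat_lit 2) (nat_lit 0) (Rl.cons (nat_lit 0) (nat_lit 36) Rl.nil) C3_0 = true := by decide +kernel
def wf3_1 : wfC (nat_lit 59) (nat_lit 11) C3_1 = true := by decide +kernel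
def rf3_1 : rfCk (nat_lit 60) (nat_lit 17) (nat_lit 59) (nat_lit 11) (nat_lit 4) (nat_lit 524288) (nat_lit 1) TL3 CL2 CL3 = true := by decide +kernel
def st3_1_0 : starCk (nat_lit 59) (nat_lit 11) (nat_lit 1) (nat_lit 5) (nat_lit 24) (nat_lit 110) (nat_lit 16) C3_1 = true := by decide +kernel
def sc3_1 : stCov (nat_lit 1) (nat_lit 110) (Rl.cons (nat_lit 110) (nat_lit 24) Rl.nil) C3_1 = true := by decide +kernel
def wf3_2 : wfC (nat_lit 59) (nat_lit 11) C3_2 = true := by decide +kernel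
def rf3_2 : rfCk (nat_lit 60) (nat_lit 17) (nat_lit 59) (nat_lit 11) (nat_lit 4) (nat_lit 524288) (nat_lit 2) TL3 CL2 CL3 = true := by decide +kernel
def st3_2_0 : starCk (nat_lit 59) (nat_lit 11) (nat_lit 1) (nat_lit 5) (nat_lit 39) (nat_lit 197) (nat_lit 16) C3_2 = true := by decide +kernel
def sc3_2 : stCov (nat_lit 1) (nat_lit 197) (Rl.cons (nat_lit 197) (nat_lit 39) Rl.nil) C3_2 = true := by decide +kernel
def wf3_3 : wfC (nat_lit 59) (nat_lit 11) C3_3 = true := by decide +kernel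
def rf3_3 : rfCk (nat_lit 60) (nat_lit 17) (nat_lit 59) (nat_lit 11) (nat_lit 4) (nat_lit 524288) (nat_lit 3) TL3 CL2 CL3 = true := by decide +kernel
def st3_3_0 : starCk (nat_lit 59) (nat_lit 11) (nat_lit 1) (nat_lit 5) (nat_lit 48) (nat_lit 283) (nat_lit 256) C3_3 = true := by decide +kernel
def sc3_3 : stCov (nat_lit 2) (nat_lit 283) (Rl.cons (nat_lit 283) (nat_lit 48) Rl.nil) C3_3 = true := by decide +kernel
def wf3_4 : wfC (nat_lit 59) (nat_lit 11) C3_4 = true := by decide +kernel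
def rf3_4 : rfCk (nat_lit 60) (nat_lit 17) (nat_lit 59) (nat_lit 11) (nat_lit 4) (nat_lit 524288) (nat_lit 4) TL3 CL2 CL3 = true := by decide +kernel
def st3_4_0 : starCk (nat_lit 59) (nat_lit 11) (nat_lit 1) (nat_lit 5) (nat_lit 21) (nat_lit 83) (nat_lit 16) C3_4 = true := by decide +kernel
def sc3_4 : stCov (nat_lit 1) (nat_lit 83) (Rl.cons (nat_lit 83) (nat_lit 21) Rl.nil) C3_4 = true := by decide +kernel
def wf3_5 : wfC (nat_lit 59) (nat_lit 11) C3_5 = true := by decide +kernel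
def rf3_5 : rfCk (nat_lit 60) (nat_lit 17) (nat_lit 59) (nat_lit 11) (nat_lit 4) (nat_lit 524288) (nat_lit 5) TL3 CL2 CL3 = true := by decide +kernel
def st3_5_0 : starCk (nat_lit 59) (nat_lit 11) (nat_lit 1) (nat_lit 5) (nat_lit 20) (nat_lit 50) (nat_lit 256) C3_5 = true := by decide +kernel
def sc3_5 : stCov (nat_lit 2) (nat_lit 50) (Rl.cons (nat_lit 50) (nat_lit 20) Rl.nil) C3_5 = true := by decide +kernel
def wf3_6 : wfC (nat_lit 59) (nat_lit 11) C3_6 = true := by decide +kernel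
def rf3_6 : rfCk (nat_lit 60) (nat_lit 17) (nat_lit 59) (nat_lit 11) (nat_lit 4) (nat_lit 524288) (nat_lit 6) TL3 CL2 CL3 = true := by decide +kernel
def st3_6_0 : starCk (nat_lit 59) (nat_lit 11) (nat_lit 1) (nat_lit 5) (nat_lit 4) (nat_lit 63) (nat_lit 16) C3_6 = true := by decide +kernel
def sc3_6 : stCov (nat_lit 1) (nat_lit 63) (Rl.cons (nat_lit 63) (nat_lit 4) Rl.nil) C3_6 = true := by decide +kernel
def wf3_9 : wfC (nat_lit 59) (nat_lit 11) C3_9 = true := by decide +kernel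
def rf3_9 : rfCk (nat_lit 60) (nat_lit 17) (nat_lit 59) (nat_lit 11) (nat_lit 4) (nat_lit 524288) (nat_lit 9) TL3 CL2 CL3 = true := by decide +kernel

end Pool.Agent.NNr.R13_1_5_6
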