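import Pool.Agent.NNr.R13_1_5_6.D2
import Pool.Agent.NNr.R13_1_5_6.D3

set_option linter.all false
set_option maxRecDepth 1000000
namespace Pool.Agent.NNr.R13_1_5_6

open Pool.Agent.NNe

def st3_9_0 : starCk (nat_lit 59) (nat_lit 11) (nat_lit 1) (nat_lit 5) (nat_lit 271) (nat_lit 666) (nat_lit 4096) C3_9 = true := by decide +kernel
def st3_9_1 : starCk (nat_lit 59) (nat_lit 11) (nat_lit 1) (nat_lit 5) (nat_lit 271) (nat_lit 937) (nat_lit 4096) C3_9 = true := by decide +kernel
def sc3_9 : stCov (nat_lit 3) (nat_lit 666) (Rl.cons (nat_lit 666) (nat_lit 271) (Rl.cons (nat_lit 937) (nat_lit 271) Rl.nil)) C3_9 = true := by decide +kernel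
def wf3_10 : wfC (nat_lit 59) (nat_lit 11) C3_10 = true := by decide +kernel
def rf3_10 : rfCk (nat_lit 60) (nat_lit 17) (nat_lit 59) (nat_lit 11) (nat_lit 4) (nat_lit 524288) (nat_lit 10) TL3 CL2 CL3 = true := by decide +kernel
def st3_10_0 : starCk (nat_lit 59) (nat_lit 11) (nat_lit 1) (nat_lit 5) (nat_lit 103) (nat_lit 656) (nat_lit 16) C3_10 = true := by decide +kernel
def sc3_10 : stCov (nat_lit 1) (nat_lit 656) (Rl.cons (nat_lit 656) (nat_lit 103) Rl.nil) C3_10 = true := by decide +kernel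
def wf3_11 : wfC (nat_lit 59) (nat_lit 11) C3_11 = true := by decide +kernel
def rf3_11 : rfCk (nat_lit 60) (nat_lit 17) (nat_lit 59) (nat_lit 11) (nat_lit 4) (nat_lit 524288) (nat_lit 11) TL3 CL2 CL3 = true := by decide +kernel
def st3_11_0 : starCk (nat_lit 59) (nat_lit 11) (nat_lit 1) (nat_lit 5) (nat_lit 106) (nat_lit 598) (nat_lit 16) C3_11 = true := by decide +kernel
def sc3_11 : stCov (nat_lit 1) (nat_lit 598) (Rl.cons (nat_lit 598) (nat_lit 106) Rl.nil) C3_11 = true := by decide +kernel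
def wf3_12 : wfC (nat_lit 59) (nat_lit 11) C3_12 = true := by decide +kernel
def rf3_12 : rfCk (nat_lit 60) (nat_lit 17) (nat_lit 59) (nat_lit 11) (nat_lit 4) (nat_lit 524288) (nat_lit 12) TL3 CL2 CL3 = true := by decide +kernel
def st3_12_0 : starCk (nat_lit 59) (nat_lit 11) (nat_lit 1) (nat_lit 5) (nat_lit 140) (nat_lit 329) (nat_lit 256) C3_12 = true := by decide +kernel
def sc3_12 : stCov (nat_lit 2) (nat_lit 329) (Rl.cons (nat_lit 329) (nat_lit 140) Rl.nil) C3_12 = true := by decide +kernel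
def wf3_13 : wfC (nat_lit 59) (nat_lit 11) C3_13 = true := by decide +kernel
def rf3_13 : rfCk (nat_lit 60) (nat_lit 17) (nat_lit 59) (nat_lit 11) (nat_lit 4) (nat_lit 524288) (nat_lit 13) TL3 CL2 CL3 = true := by decide +kernel

end Pool.Agent.NNr.R13_1_5_6
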