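import Pool.Agent.NNr.R13_1_5_6.D0
import Pool.Agent.NNr.R13_1_5_6.D1
import Pool.Agent.NNr.R13_1_5_6.D2
import Pool.Agent.NNr.R13_1_5_6.D3
import Pool.Agent.NNr.R13_1_5_6.D4
import Pool.Agent.NNe.Slots

set_option linter.all false
set_option maxRecDepth 1000000
namespace Pool.Agent.NNr.R13_1_5_6

open Pool.Agent.NNe

def st3_13_0 : starCk (nat_lit 59) (nat_lit 11) (nat_lit 1) (nat_lit 5) (nat_lit 41) (nat_lit 341) (nat_lit 16) C3_13 = true := by decide +kernel
def sc3_13 : stCov (nat_lit 1) (nat_lit 341) (Rl.cons (nat_lit 341) (nat_lit 41) Rl.nil) C3_13 = true := by decide +kernel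
def ti3_0 : tileCk (nat_lit 59) (nat_lit 11) (nat_lit 2) (nat_lit 5) (nat_lit 208) (nat_lit 13) (nat_lit 15) ZL3_0 CL3 = true := by decide +kernel
def zl3_0 : zlOK (nat_lit 208) ZL3_0 = true := by decide +kernel
def ti3_1 : tileCk (nat_lit 59) (nat_lit 11) (nat_lit 2) (nat_lit 5) (nat_lit 54) (nat_lit 13) (nat_lit 15) ZL3_1 CL3 = true := by decide +kernel
def zl3_1 : zlOK (nat_lit 54) ZL3_1 = true := by decide +kernel
def ti3_2 : tileCk (nat_lit 59) (nat_lit 11) (nat_lit 2) (nat_lit 5) (nat_lit 108) (nat_lit 13) (nat_lit 15) ZL3_2 CL3 = true := by decide +kernel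
def zl3_2 : zlOK (nat_lit 108) ZL3_2 = true := by decide +kernel
def tc3_0 : tiCov (nat_lit 1) (nat_lit 0) ZZ3 C3_0 = true := by decide +kernel
def tc3_1 : tiCov (nat_lit 1) (nat_lit 1) ZZ3 C3_1 = true := by decide +kernel
def tc3_2 : tiCov (nat_lit 1) (nat_lit 2) ZZ3 C3_2 = true := by decide +kernel
def tc3_3 : tiCov (nat_lit 1) (nat_lit 3) ZZ3 C3_3 = true := by decide +kernel
def tc3_4 : tiCov (nat_lit 1) (nat_lit 4) ZZ3 C3_4 = true := by decide +kernel
def tc3_5 : tiCov (nat_lit 1) (nat_lit 5) ZZ3 C3_5 = true := by decide +kernel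
def tc3_6 : tiCov (nat_lit 1) (nat_lit 6) ZZ3 C3_6 = true := by decide +kernel
def tc3_9 : tiCov (nat_lit 1) (nat_lit 9) ZZ3 C3_9 = true := by decide +kernel
def tc3_10 : tiCov (nat_lit 1) (nat_lit 10) ZZ3 C3_10 = true := by decide +kernel
def tc3_11 : tiCov (nat_lit 1) (nat_lit 11) ZZ3 C3_11 = true := by decide +kernel
def tc3_12 : tiCov (nat_lit 1) (nat_lit 12) ZZ3 C3_12 = true := by decide +kernel
def tc3_13 : tiCov (nat_lit 1) (nat_lit 13) ZZ3 C3_13 = true := by decide +kernel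
def wf4_0 : wfC (nat_lit 22) (nat_lit 5) C4_0 = true := by decide +kernel
def rf4_0 : rfCk (nat_lit 59) (nat_lit 11) (nat_lit 22) (nat_lit 5) (nat_lit 9) (nat_lit 0) (nat_lit 0) TL4 CL3 CL4 = true := by decide +kernel
def st4_0_0 : starCk (nat_lit 22) (nat_lit 5) (nat_lit 1) (nat_lit 2) (nat_lit 2) (nat_lit 0) (nat_lit 256) C4_0 = true := by decide +kernel
def sc4_0 : stCov (nat_lit 2) (nat_lit 0) (Rl.cons (nat_lit 0) (nat_lit 2) Rl.nil) C4_0 = true := by decide +kernel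
def wf4_2 : wfC (nat_lit 22) (nat_lit 5) C4_2 = true := by decide +kernel
def rf4_2 : rfCk (nat_lit 59) (nat_lit 11) (nat_lit 22) (nat_lit 5) (nat_lit 9) (nat_lit 0) (nat_lit 2) TL4 CL3 CL4 = true := by decide +kernel
def st4_2_0 : starCk (nat_lit 22) (nat_lit 5) (nat_lit 1) (nat_lit 2) (nat_lit 6) (nat_lit 8) (nat_lit 1) C4_2 = true := by decide +kernel
def sc4_2 : stCov (nat_lit 0) (nat_lit 8) (Rl.cons (nat_lit 8) (nat_lit 6) Rl.nil) C4_2 = true := by decide +kernel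
def wf4_3 : wfC (nat_lit 22) (nat_lit 5) C4_3 = true := by decide +kernel
def rf4_3 : rfCk (nat_lit 59) (nat_lit 11) (nat_lit 22) (nat_lit 5) (nat_lit 9) (nat_lit 0) (nat_lit 3) TL4 CL3 CL4 = true := by decide +kernel
def st4_3_0 : starCk (nat_lit 22) (nat_lit 5) (nat_lit 1) (nat_lit 2) (nat_lit 5) (nat_lit 31) (nat_lit 256) C4_3 = true := by decide +kernel
def sc4_3 : stCov (nat_lit 2) (nat_lit 31) (Rl.cons (nat_lit 31) (nat_lit 5) Rl.nil) C4_3 = true := by decide +kernel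
def wf4_4 : wfC (nat_lit 22) (nat_lit 5) C4_4 = true := by decide +kernel
def rf4_4 : rfCk (nat_lit 59) (nat_lit 11) (nat_lit 22) (nat_lit 5) (nat_lit 9) (nat_lit 0) (nat_lit 4) TL4 CL3 CL4 = true := by decide +kernel
def st4_4_0 : starCk (nat_lit 22) (nat_lit 5) (nat_lit 1) (nat_lit 2) (nat_lit 4) (nat_lit 5) (nat_lit 1) C4_4 = true := by decide +kernel
def sc4_4 : stCov (nat_lit 0) (nat_lit 5) (Rl.cons (nat_lit 5) (nat_lit 4) Rl.nil) C4_4 = true := by decide +kernel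
def wf4_5 : wfC (nat_lit 22) (nat_lit 5) C4_5 = true := by decide +kernel
def rf4_5 : rfCk (nat_lit 59) (nat_lit 11) (nat_lit 22) (nat_lit 5) (nat_lit 9) (nat_lit 0) (nat_lit 5) TL4 CL3 CL4 = true := by decide +kernel
def st4_5_0 : starCk (nat_lit 22) (nat_lit 5) (nat_lit 1) (nat_lit 2) (nat_lit 1) (nat_lit 5) (nat_lit 256) C4_5 = true := by decide +kernel
def sc4_5 : stCov (nat_lit 2) (nat_lit 5) (Rl.cons (nat_lit 5) (nat_lit 1) Rl.nil) C4_5 = true := by decide +kernel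
def wf4_9 : wfC (nat_lit 22) (nat_lit 5) C4_9 = true := by decide +kernel
def rf4_9 : rfCk (nat_lit 59) (nat_lit 11) (nat_lit 22) (nat_lit 5) (nat_lit 9) (nat_lit 0) (nat_lit 9) TL4 CL3 CL4 = true := by decide +kernel
def st4_9_0 : starCk (nat_lit 22) (nat_lit 5) (nat_lit 1) (nat_lit 2) (nat_lit 41) (nat_lit 70) (nat_lit 4096) C4_9 = true := by decide +kernel
def sc4_9 : stCov (nat_lit 3) (nat_lit 70) (Rl.cons (nat_lit 70) (nat_lit 41) Rl.nil) C4_9 = true := by decide +kernel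
def wf4_10 : wfC (nat_lit 22) (nat_lit 5) C4_10 = true := by decide +kernel
def rf4_10 : rfCk (nat_lit 59) (nat_lit 11) (nat_lit 22) (nat_lit 5) (nat_lit 9) (nat_lit 0) (nat_lit 10) TL4 CL3 CL4 = true := by decide +kernel
def st4_10_0 : starCk (nat_lit 22) (nat_lit 5) (nat_lit 1) (nat_lit 2) (nat_lit 15) (nat_lit 64) (nat_lit 256) C4_10 = true := by decide +kernel
def sc4_10 : stCov (nat_lit 2) (nat_lit 64) (Rl.cons (nat_lit 64) (nat_lit 15) Rl.nil) C4_10 = true := by decide +kernel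
def wf4_11 : wfC (nat_lit 22) (nat_lit 5) C4_11 = true := by decide +kernel
def rf4_11 : rfCk (nat_lit 59) (nat_lit 11) (nat_lit 22) (nat_lit 5) (nat_lit 9) (nat_lit 0) (nat_lit 11) TL4 CL3 CL4 = true := by decide +kernel
def st4_11_0 : starCk (nat_lit 22) (nat_lit 5) (nat_lit 1) (nat_lit 2) (nat_lit 32) (nat_lit 79) (nat_lit 4096) C4_11 = true := by decide +kernel
def sc4_11 : stCov (nat_lit 3) (nat_lit 79) (Rl.cons (nat_lit 79) (nat_lit 32) Rl.nil) C4_11 = true := by decide +kernel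
def wf4_12 : wfC (nat_lit 22) (nat_lit 5) C4_12 = true := by decide +kernel
def rf4_12 : rfCk (nat_lit 59) (nat_lit 11) (nat_lit 22) (nat_lit 5) (nat_lit 9) (nat_lit 0) (nat_lit 12) TL4 CL3 CL4 = true := by decide +kernel
def st4_12_0 : starCk (nat_lit 22) (nat_lit 5) (nat_lit 1) (nat_lit 2) (nat_lit 2) (nat_lit 13) (nat_lit 256) C4_12 = true := by decide +kernel
def sc4_12 : stCov (nat_lit 2) (nat_lit 13) (Rl.cons (nat_lit 13) (nat_lit 2) Rl.nil) C4_12 = true := by decide +kernel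
def wf4_13 : wfC (nat_lit 22) (nat_lit 5) C4_13 = true := by decide +kernel
def rf4_13 : rfCk (nat_lit 59) (nat_lit 11) (nat_lit 22) (nat_lit 5) (nat_lit 9) (nat_lit 0) (nat_lit 13) TL4 CL3 CL4 = true := by decide +kernel
def st4_13_0 : starCk (nat_lit 22) (nat_lit 5) (nat_lit 1) (nat_lit 2) (nat_lit 3) (nat_lit 23) (nat_lit 16) C4_13 = true := by decide +kernel
def sc4_13 : stCov (nat_lit 1) (nat_lit 23) (Rl.cons (nat_lit 23) (nat_lit 3) Rl.nil) C4_13 = true := by decide +kernel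
def ti4_0 : tileCk (nat_lit 22) (nat_lit 5) (nat_lit 2) (nat_lit 2) (nat_lit 42) (nat_lit 13) (nat_lit 15) ZL4_0 CL4 = true := by decide +kernel
def zl4_0 : zlOK (nat_lit 42) ZL4_0 = true := by decide +kernel
def ti4_1 : tileCk (nat_lit 22) (nat_lit 5) (nat_lit 2) (nat_lit 2) (nat_lit 8) (nat_lit 13) (nat_lit 15) ZL4_1 CL4 = true := by decide +kernel
def zl4_1 : zlOK (nat_lit 8) ZL4_1 = true := by decide +kernel
def ti4_2 : tileCk (nat_lit 22) (nat_lit 5) (nat_lit 2) (nat_lit 2) (nat_lit 16) (nat_lit 13) (nat_lit 15) ZL4_2 CL4 = true := by decide +kernel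
def zl4_2 : zlOK (nat_lit 16) ZL4_2 = true := by decide +kernel
def tc4_0 : tiCov (nat_lit 1) (nat_lit 0) ZZ4 C4_0 = true := by decide +kernel
def tc4_2 : tiCov (nat_lit 1) (nat_lit 2) ZZ4 C4_2 = true := by decide +kernel
def tc4_3 : tiCov (nat_lit 1) (nat_lit 3) ZZ4 C4_3 = true := by decide +kernel
def tc4_4 : tiCov (nat_lit 1) (nat_lit 4) ZZ4 C4_4 = true := by decide +kernel
def tc4_5 : tiCov (nat_lit 1) (nat_lit 5) ZZ4 C4_5 = true := by decide +kernel
def tc4_9 : tiCov (nat_lit 1) (nat_lit 9) ZZ4 C4_9 = true := by decide +kernel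
def tc4_10 : tiCov (nat_lit 1) (nat_lit 10) ZZ4 C4_10 = true := by decide +kernel
def tc4_11 : tiCov (nat_lit 1) (nat_lit 11) ZZ4 C4_11 = true := by decide +kernel
def tc4_12 : tiCov (nat_lit 1) (nat_lit 12) ZZ4 C4_12 = true := by decide +kernel
def tc4_13 : tiCov (nat_lit 1) (nat_lit 13) ZZ4 C4_13 = true := by decide +kernel
def de4_0 : deadCk (nat_lit 22) (nat_lit 5) C4_0 = true := by decide +kernel
def de4_2 : deadCk (nat_lit 22) (nat_lit 5) C4_2 = true := by decide +kernel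
def de4_3 : deadCk (nat_lit 22) (nat_lit 5) C4_3 = true := by decide +kernel
def de4_4 : deadCk (nat_lit 22) (nat_lit 5) C4_4 = true := by decide +kernel
def de4_5 : deadCk (nat_lit 22) (nat_lit 5) C4_5 = true := by decide +kernel
def de4_9 : deadCk (nat_lit 22) (nat_lit 5) C4_9 = true := by decide +kernel
def de4_10 : deadCk (nat_lit 22) (nat_lit 5) C4_10 = true := by decide +kernel
def de4_11 : deadCk (nat_lit 22) (nat_lit 5) C4_11 = true := by decide +kernel
def de4_12 : deadCk (nat_lit 22) (nat_lit 5) C4_12 = true := by decide +kernel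
def de4_13 : deadCk (nat_lit 22) (nat_lit 5) C4_13 = true := by decide +kernel
def wf1_7 : wfC (nat_lit 60) (nat_lit 5) C1_7 = true := by decide +kernel
def wf1_8 : wfC (nat_lit 60) (nat_lit 5) C1_8 = true := by decide +kernel
def wf1_14 : wfC (nat_lit 60) (nat_lit 5) C1_14 = true := by decide +kernel
def rf1_7 : rfCk (nat_lit 61) (nat_lit 8) (nat_lit 60) (nat_lit 5) (nat_lit 1) (nat_lit 262144) (nat_lit 7) TL1 CL0 CL1 = true := by decide +kernel
def rf1_8 : rfCk (nat_lit 61) (nat_lit 8) (nat_lit 60) (nat_lit 5) (nat_lit 1) (nat_lit 262144) (nat_lit 8) TL1 CL0 CL1 = true := by decide +kernel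
def rf1_14 : rfCk (nat_lit 61) (nat_lit 8) (nat_lit 60) (nat_lit 5) (nat_lit 1) (nat_lit 262144) (nat_lit 14) TL1 CL0 CL1 = true := by decide +kernel
def sc1_7 : stCov (nat_lit 0) (nat_lit 0) Rl.nil C1_7 = true := by decide +kernel
def sc1_8 : stCov (nat_lit 0) (nat_lit 0) Rl.nil C1_8 = true := by decide +kernel
def sc1_14 : stCov (nat_lit 0) (nat_lit 0) Rl.nil C1_14 = true := by decide +kernel
def tc1_7 : tiCov (nat_lit 1) (nat_lit 7) ZZ1 C1_7 = true := by decide +kernel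
def tc1_8 : tiCov (nat_lit 1) (nat_lit 8) ZZ1 C1_8 = true := by decide +kernel
def tc1_14 : tiCov (nat_lit 1) (nat_lit 14) ZZ1 C1_14 = true := by decide +kernel
def wf2_7 : wfC (nat_lit 60) (nat_lit 17) C2_7 = true := by decide +kernel
def wf2_8 : wfC (nat_lit 60) (nat_lit 17) C2_8 = true := by decide +kernel
def wf2_14 : wfC (nat_lit 60) (nat_lit 17) C2_14 = true := by decide +kernel
def rf2_7 : rfCk (nat_lit 60) (nat_lit 5) (nat_lit 60) (nat_lit 17) (nat_lit 9) (nat_lit 0) (nat_lit 7) TL2 CL1 CL2 = true := by decide +kernel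
def rf2_8 : rfCk (nat_lit 60) (nat_lit 5) (nat_lit 60) (nat_lit 17) (nat_lit 9) (nat_lit 0) (nat_lit 8) TL2 CL1 CL2 = true := by decide +kernel
def rf2_14 : rfCk (nat_lit 60) (nat_lit 5) (nat_lit 60) (nat_lit 17) (nat_lit 9) (nat_lit 0) (nat_lit 14) TL2 CL1 CL2 = true := by decide +kernel
def sc2_7 : stCov (nat_lit 0) (nat_lit 0) Rl.nil C2_7 = true := by decide +kernel
def sc2_8 : stCov (nat_lit 0) (nat_lit 0) Rl.nil C2_8 = true := by decide +kernel
def sc2_14 : stCov (nat_lit 0) (nat_lit 0) Rl.nil C2_14 = true := by decide +kernel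
def tc2_7 : tiCov (nat_lit 1) (nat_lit 7) ZZ2 C2_7 = true := by decide +kernel
def tc2_8 : tiCov (nat_lit 1) (nat_lit 8) ZZ2 C2_8 = true := by decide +kernel
def tc2_14 : tiCov (nat_lit 1) (nat_lit 14) ZZ2 C2_14 = true := by decide +kernel
def wf3_7 : wfC (nat_lit 59) (nat_lit 11) C3_7 = true := by decide +kernel
def wf3_8 : wfC (nat_lit 59) (nat_lit 11) C3_8 = true := by decide +kernel
def wf3_14 : wfC (nat_lit 59) (nat_lit 11) C3_14 = true := by decide +kernel
def rf3_7 : rfCk (nat_lit 60) (nat_lit 17) (nat_lit 59) (nat_lit 11) (nat_lit 4) (nat_lit 524288) (nat_lit 7) TL3 CL2 CL3 = true := by decide +kernel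
def rf3_8 : rfCk (nat_lit 60) (nat_lit 17) (nat_lit 59) (nat_lit 11) (nat_lit 4) (nat_lit 524288) (nat_lit 8) TL3 CL2 CL3 = true := by decide +kernel
def rf3_14 : rfCk (nat_lit 60) (nat_lit 17) (nat_lit 59) (nat_lit 11) (nat_lit 4) (nat_lit 524288) (nat_lit 14) TL3 CL2 CL3 = true := by decide +kernel
def sc3_7 : stCov (nat_lit 0) (nat_lit 0) Rl.nil C3_7 = true := by decide +kernel

end Pool.Agent.NNr.R13_1_5_6
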