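import Pool.Agent.NNr.R13_1_5_6.D3
import Pool.Agent.NNr.R13_1_5_6.D4

set_option linter.all false
set_option maxRecDepth 1000000
namespace Pool.Agent.NNr.R13_1_5_6

open Pool.Agent.NNe

def sc3_8 : stCov (nat_lit 0) (nat_lit 0) Rl.nil C3_8 = true := by decide +kernel
def sc3_14 : stCov (nat_lit 0) (nat_lit 0) Rl.nil C3_14 = true := by decide +kernel
def tc3_7 : tiCov (nat_lit 1) (nat_lit 7) ZZ3 C3_7 = true := by decide +kernel
def tc3_8 : tiCov (nat_lit 1) (nat_lit 8) ZZ3 C3_8 = true := by decide +kernel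
def tc3_14 : tiCov (nat_lit 1) (nat_lit 14) ZZ3 C3_14 = true := by decide +kernel
def wf4_1 : wfC (nat_lit 22) (nat_lit 5) C4_1 = true := by decide +kernel
def wf4_6 : wfC (nat_lit 22) (nat_lit 5) C4_6 = true := by decide +kernel
def wf4_7 : wfC (nat_lit 22) (nat_lit 5) C4_7 = true := by decide +kernel
def wf4_8 : wfC (nat_lit 22) (nat_lit 5) C4_8 = true := by decide +kernel
def wf4_14 : wfC (nat_lit 22) (nat_lit 5) C4_14 = true := by decide +kernel
def rf4_1 : rfCk (nat_lit 59) (nat_lit 11) (nat_lit 22) (nat_lit 5) (nat_lit 9) (nat_lit 0) (nat_lit 1) TL4 CL3 CL4 = true := by decide +kernel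
def rf4_6 : rfCk (nat_lit 59) (nat_lit 11) (nat_lit 22) (nat_lit 5) (nat_lit 9) (nat_lit 0) (nat_lit 6) TL4 CL3 CL4 = true := by decide +kernel
def rf4_7 : rfCk (nat_lit 59) (nat_lit 11) (nat_lit 22) (nat_lit 5) (nat_lit 9) (nat_lit 0) (nat_lit 7) TL4 CL3 CL4 = true := by decide +kernel
def rf4_8 : rfCk (nat_lit 59) (nat_lit 11) (nat_lit 22) (nat_lit 5) (nat_lit 9) (nat_lit 0) (nat_lit 8) TL4 CL3 CL4 = true := by decide +kernel
def rf4_14 : rfCk (nat_lit 59) (nat_lit 11) (nat_lit 22) (nat_lit 5) (nat_lit 9) (nat_lit 0) (nat_lit 14) TL4 CL3 CL4 = true := by decide +kernel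
def sc4_1 : stCov (nat_lit 0) (nat_lit 0) Rl.nil C4_1 = true := by decide +kernel
def sc4_6 : stCov (nat_lit 0) (nat_lit 0) Rl.nil C4_6 = true := by decide +kernel
def sc4_7 : stCov (nat_lit 0) (nat_lit 0) Rl.nil C4_7 = true := by decide +kernel
def sc4_8 : stCov (nat_lit 0) (nat_lit 0) Rl.nil C4_8 = true := by decide +kernel
def sc4_14 : stCov (nat_lit 0) (nat_lit 0) Rl.nil C4_14 = true := by decide +kernel
def tc4_1 : tiCov (nat_lit 1) (nat_lit 1) ZZ4 C4_1 = true := by decide +kernel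
def tc4_6 : tiCov (nat_lit 1) (nat_lit 6) ZZ4 C4_6 = true := by decide +kernel
def tc4_7 : tiCov (nat_lit 1) (nat_lit 7) ZZ4 C4_7 = true := by decide +kernel
def tc4_8 : tiCov (nat_lit 1) (nat_lit 8) ZZ4 C4_8 = true := by decide +kernel
def tc4_14 : tiCov (nat_lit 1) (nat_lit 14) ZZ4 C4_14 = true := by decide +kernel
def de4_1 : deadCk (nat_lit 22) (nat_lit 5) C4_1 = true := by decide +kernel
def de4_6 : deadCk (nat_lit 22) (nat_lit 5) C4_6 = true := by decide +kernel
def de4_7 : deadCk (nat_lit 22) (nat_lit 5) C4_7 = true := by decide +kernel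
def de4_8 : deadCk (nat_lit 22) (nat_lit 5) C4_8 = true := by decide +kernel
def de4_14 : deadCk (nat_lit 22) (nat_lit 5) C4_14 = true := by decide +kernel

end Pool.Agent.NNr.R13_1_5_6
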